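import Pool.Agent.MaxTerm.Main
import Pool.Agent.MaxTerm.PartA.U5

/-!
# MP_4255df_an, Q1: the exact value of `β`

`β = 1 / K*`, `K* = min_{|q| < 1} max_{|z| = 1} |θ_q(z)|`, `θ_q(z) = ∑_{n ∈ ℤ} q^{n(n-1)/2} z^n`
(`MaxTerm.Kstar`, `MaxTerm.thetaMax`, `MaxTerm.theta`). The supremum is attained, by
`f(w) = ∑_{n ≥ 0} q^{n(n-1)/2} w^n` with `q` a minimiser; the minimiser is unique up to conjugation and is given
by the unique solution `(q, z, l)` of an explicit system of equations (`MaxTerm.Stationary`) in an explicit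
small box (`MaxTerm.InBox`).
-/

open Filter Topology ComplexConjugate MaxTerm

namespace Pool.Agent.Results.MP_4255df_an.ExactBeta

theorem result :
    IsGreatest {b : ℝ | ∃ f : ℂ → ℂ, TransEntire f ∧ b = betaOf f} (1 / Kstar) ∧
    0.5850788195 < 1 / Kstar ∧ 1 / Kstar < 0.5850788199 ∧
    ∃ (q z : ℂ) (l : ℝ), InBox q z l ∧ Stationary q z l ∧ ‖theta q 1‖ = Kstar ∧
      (∀ (q' z' : ℂ) (l' : ℝ), InBox q' z' l' → Stationary q' z' l' → q' = q ∧ z' = z ∧ l' = l) ∧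
      (∀ p : ℂ, ‖p‖ < 1 → (thetaMax p = Kstar ↔ p = q ∨ p = conj q)) ∧
      TransEntire (fun w => ∑' n : ℕ, q ^ (n * (n - 1) / 2) * w ^ n) ∧
      betaOf (fun w => ∑' n : ℕ, q ^ (n * (n - 1) / 2) * w ^ n) = 1 / Kstar := by
  obtain ⟨q, z, l, hb, hs, h1, hK, hu, hm⟩ := PA.Uq.main_unique
  have hq : ‖q‖ < 1 := PA.Uq.norm_lt_one_of_near hb.hq
  have hq0 : q ≠ 0 := by
    rintro rfl
    have h2 := hb.hq
    have h3 := (Complex.abs_im_le_norm _).trans h2
    norm_num [abs_le] at h3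
  obtain ⟨h4, h5⟩ := exists_extremal hq hq0
  have h6 : betaOf (fun w => ∑' n : ℕ, q ^ (n * (n - 1) / 2) * w ^ n) = 1 / Kstar := by
    refine le_antisymm (betaOf_le h4) ?_
    rwa [hK] at h5
  have hpos := Kstar_pos
  have hle := PA.Kstar_sq_le
  have hge := PA.Kstar_sq_ge
  refine ⟨⟨⟨_, h4, h6.symm⟩, ?_⟩, ?_, ?_, q, z, l, hb, hs, h1, hu, hm, h4, h6⟩
  · rintro b ⟨f, hf, rfl⟩
    exact betaOf_le hf
  · rw [lt_div_iff₀ hpos]
    have h7 : Kstar < 1 / 0.5850788195 := by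
      refine lt_of_pow_lt_pow_left₀ 2 (by norm_num) (lt_of_le_of_lt hle ?_)
      norm_num
    calc 0.5850788195 * Kstar < 0.5850788195 * (1 / 0.5850788195) := by gcongr
      _ = 1 := by norm_num
  · rw [div_lt_iff₀ hpos]
    have h7 : 1 / 0.5850788199 < Kstar := by
      refine lt_of_pow_lt_pow_left₀ 2 hpos.le (lt_of_lt_of_le ?_ hge)
      norm_num
    calc (1 : ℝ) = 0.5850788199 * (1 / 0.5850788199) := by norm_num
      _ < 0.5850788199 * Kstar := by gcongr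

end Pool.Agent.Results.MP_4255df_an.ExactBeta
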